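import Pool.Agent.U84.AWQ.Stm
import Pool.Agent.R456.CL.Base2

/-!
# Project AWQ, package CB: calculus of clean corners with bounds
-/

set_option autoImplicit false

namespace Pool.Agent.U346.AWQ

open Pool.Agent.R456.CL Pool.Agent.U84.AWQ

universe u

variable {A : Type u} [CStarAlgebra A]

lemma pj_norm_le {r : A} (hr : PJ r) : ‖r‖ ≤ 1 := by
  have h1 : ‖star r * r‖ = ‖r‖ * ‖r‖ := CStarRing.norm_star_mul_self
  rw [PJ.star hr, PJ.mul_self hr] at h1
  by_contra h
  push Not at h
  nlinarith [norm_nonneg r]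

lemma norm_corner {r s x x' : A} {M : ℝ} (hM : 0 ≤ M) (hr : PJ r) (hs : PJ s) (hrs : r * s = 0)
    (h1 : r * x = x) (h2 : x * r = x) (h3 : s * x' = x') (h4 : x' * s = x')
    (hx : ‖x‖ ≤ M) (hx' : ‖x'‖ ≤ M) : ‖x + x'‖ ≤ M := by
  let _ : PartialOrder A := CStarAlgebra.spectralOrder A
  let _ : StarOrderedRing A := CStarAlgebra.spectralOrderedRing A
  have hsr : s * r = 0 := orth_comm hr hs hrs
  have key : ∀ {q z : A}, PJ q → z * q = z → ‖z‖ ≤ M → star z * z ≤ (M ^ 2) • q := by
    intro q z hq hz hn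
    have hzz : star z * z ≤ algebraMap ℝ A (‖star z * z‖) :=
      IsSelfAdjoint.le_algebraMap_norm_self (IsSelfAdjoint.star_mul_self z)
    have h5 := star_left_conjugate_le_conjugate hzz q
    have h6 : star q * (star z * z) * q = star z * z := by
      calc star q * (star z * z) * q = star (z * q) * (z * q) := by
            rw [star_mul]; simp only [mul_assoc]
        _ = star z * z := by rw [hz]
    have h7 : star q * (algebraMap ℝ A (‖star z * z‖)) * q = ‖star z * z‖ • q := by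
      rw [← Algebra.commutes, ← Algebra.smul_def, smul_mul_assoc, PJ.star hq, PJ.mul_self hq]
    rw [h6, h7] at h5
    have hq0 : 0 ≤ q := by
      have := star_mul_self_nonneg q
      rwa [PJ.star hq, PJ.mul_self hq] at this
    refine h5.trans (smul_le_smul_of_nonneg_right ?_ hq0)
    rw [CStarRing.norm_star_mul_self]
    nlinarith [norm_nonneg z]
  have ha := key hr h2 hx
  have hb := key hs h4 hx'
  have e1 : star (x + x') * (x + x') = star x * x + star x' * x' := by
    have c1 : star x * x' = 0 := by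
      have : star x * x' = star (r * x) * (s * x') := by rw [h1, h3]
      rw [this, star_mul, PJ.star hr]
      calc star x * r * (s * x') = star x * (r * s) * x' := by simp only [mul_assoc]
        _ = 0 := by rw [hrs]; simp
    have c2 : star x' * x = 0 := by
      have : star x' * x = star (s * x') * (r * x) := by rw [h1, h3]
      rw [this, star_mul, PJ.star hs]
      calc star x' * s * (r * x) = star x' * (s * r) * x := by simp only [mul_assoc]
        _ = 0 := by rw [hsr]; simp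
    rw [star_add, add_mul, mul_add, mul_add, c1, c2]; abel
  have e2 : star (x + x') * (x + x') ≤ (M ^ 2) • (r + s) := by
    rw [e1, smul_add]; exact add_le_add ha hb
  have e3 := CStarAlgebra.norm_le_norm_of_nonneg_of_le (star_mul_self_nonneg (x + x')) e2
  rw [CStarRing.norm_star_mul_self, norm_smul] at e3
  have e4 : ‖r + s‖ ≤ 1 := pj_norm_le (pj_add hr hs hrs)
  have e5 : ‖(M ^ 2 : ℝ)‖ = M ^ 2 := by rw [Real.norm_eq_abs, abs_of_nonneg (by positivity)]
  rw [e5] at e3
  have e6 : ‖x + x'‖ * ‖x + x'‖ ≤ M ^ 2 := by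
    refine e3.trans ?_
    nlinarith [sq_nonneg M]
  exact abs_le_of_sq_le_sq' (by nlinarith) hM |>.2

lemma cb_one (r T : A) (c : ℂ) (hr : PJ r) (h : ‖r * (T - c • (1 : A)) * r‖ ≤ 1 / 4) :
    CB r T := by
  have hrr := PJ.mul_self hr
  set n : A := r * (T - c • (1 : A)) * r with hn
  have n1 : r * n = n := by rw [hn, ← mul_assoc, ← mul_assoc, hrr]
  have n2 : n * r = n := by rw [hn, mul_assoc, hrr]
  have n3 : r * T * r = c • r + n := by
    rw [hn, mul_sub, sub_mul, mul_smul_comm, mul_one, smul_mul_assoc, hrr]; abel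
  have hr1 := pj_norm_le hr
  have main : ∀ (d : ℂ), 1 / 2 ≤ ‖d‖ → ∃ y : A, r * y = y ∧ y * r = y ∧
      y * (d • r + n) = r ∧ (d • r + n) * y = r ∧ ‖y‖ ≤ 8 := by
    intro d hd
    obtain ⟨-, -, y, y1, y2, y3, y4⟩ := iso_scalar (c := d) hr n1 n2 (by linarith)
    refine ⟨y, y1, y2, y3, y4, ?_⟩
    have e1 : d • y = r - y * n := by
      rw [mul_add, mul_smul_comm, y2] at y3
      rw [← y3]; abel
    have e2 : ‖d‖ * ‖y‖ ≤ 1 + ‖y‖ * (1 / 4) := by
      rw [← norm_smul, e1]
      refine (norm_sub_le _ _).trans (add_le_add hr1 ((norm_mul_le _ _).trans ?_))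
      exact mul_le_mul_of_nonneg_left h (norm_nonneg y)
    have e3 : (1 / 2) * ‖y‖ ≤ ‖d‖ * ‖y‖ := mul_le_mul_of_nonneg_right hd (norm_nonneg y)
    linarith
  rcases le_or_gt (1 / 2) ‖c‖ with hc | hc
  · obtain ⟨y, y1, y2, y3, y4, y5⟩ := main c hc
    refine ⟨0, y, by simp, by simp, by simp, by simp, y1, y2, ?_, ?_, y5⟩
    · rw [n3, sub_zero]; exact y3
    · rw [n3, sub_zero]; exact y4
  · have hc' : 1 / 2 ≤ ‖c - 1‖ := by
      have := norm_sub_norm_le (1 : ℂ) c
      rw [norm_one, norm_sub_rev] at this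
      linarith
    obtain ⟨y, y1, y2, y3, y4, y5⟩ := main (c - 1) hc'
    have e : r * T * r - r = (c - 1) • r + n := by
      rw [n3, sub_smul, one_smul]; abel
    refine ⟨r, y, hrr, hrr, hrr, hr1, y1, y2, ?_, ?_, y5⟩
    · rw [e]; exact y3
    · rw [e]; exact y4

lemma cb_two (r T z : A) (hz : CP z) (hr : PJ r) (h : CB r T) : CB (z * r) T := by
  obtain ⟨hz, hc⟩ := hz
  obtain ⟨P, y, p1, p2, p3, p4, y1, y2, y3, y4, y5⟩ := h
  have hzz := PJ.mul_self hz
  have hz1 := pj_norm_le hz
  have mm : ∀ a b : A, (z * a) * (z * b) = z * (a * b) := by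
    intro a b
    calc (z * a) * (z * b) = z * (a * z) * b := by simp only [mul_assoc]
      _ = z * (z * a) * b := by rw [← hc a]
      _ = (z * z) * (a * b) := by simp only [mul_assoc]
      _ = z * (a * b) := by rw [hzz]
  have e : z * r * T * (z * r) - z * P = z * (r * T * r - P) := by
    have : z * r * T * (z * r) = (z * (r * T)) * (z * r) := by simp only [mul_assoc]
    rw [this, mm, mul_sub]
  refine ⟨z * P, z * y, by rw [mm, p1], by rw [mm, p2], by rw [mm, p3], ?_, by rw [mm, y1],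
    by rw [mm, y2], by rw [e, mm, y3], by rw [e, mm, y4], ?_⟩
  · refine (norm_mul_le _ _).trans ?_
    calc ‖z‖ * ‖P‖ ≤ 1 * 1 := mul_le_mul hz1 p4 (norm_nonneg _) zero_le_one
      _ = 1 := one_mul 1
  · refine (norm_mul_le _ _).trans ?_
    calc ‖z‖ * ‖y‖ ≤ 1 * 8 := mul_le_mul hz1 y5 (norm_nonneg _) zero_le_one
      _ = 8 := one_mul 8

lemma cb_three (r s T : A) (hr : PJ r) (hs : PJ s) (hrs : r * s = 0) (hrT : r * T = T * r)
    (hsT : s * T = T * s) (h1 : CB r T) (h2 : CB s T) : CB (r + s) T := by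
  obtain ⟨P, y, p1, p2, p3, p4, y1, y2, y3, y4, y5⟩ := h1
  obtain ⟨Q, w, q1, q2, q3, q4, w1, w2, w3, w4, w5⟩ := h2
  have hsr : s * r = 0 := orth_comm hr hs hrs
  have zl : ∀ {a b : A}, a * r = a → s * b = b → a * b = 0 := by
    intro a b ha hb
    rw [← ha, ← hb]
    calc a * r * (s * b) = a * (r * s) * b := by simp only [mul_assoc]
      _ = 0 := by rw [hrs]; simp
  have zr : ∀ {a b : A}, a * s = a → r * b = b → a * b = 0 := by
    intro a b ha hb
    rw [← ha, ← hb]
    calc a * s * (r * b) = a * (s * r) * b := by simp only [mul_assoc]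
      _ = 0 := by rw [hsr]; simp
  have hrr := PJ.mul_self hr
  have hss := PJ.mul_self hs
  set X : A := r * T * r - P with hX
  set Y : A := s * T * s - Q with hY
  have X1 : r * X = X := by rw [hX, mul_sub, ← mul_assoc, ← mul_assoc, hrr, p1]
  have X2 : X * r = X := by rw [hX, sub_mul, mul_assoc, hrr, p2]
  have Y1 : s * Y = Y := by rw [hY, mul_sub, ← mul_assoc, ← mul_assoc, hss, q1]
  have Y2 : Y * s = Y := by rw [hY, sub_mul, mul_assoc, hss, q2]
  have e : (r + s) * T * (r + s) - (P + Q) = X + Y := by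
    have c1 : r * T * s = 0 := by rw [hrT, mul_assoc, hrs, mul_zero]
    have c2 : s * T * r = 0 := by rw [hsT, mul_assoc, hsr, mul_zero]
    rw [hX, hY, add_mul, add_mul, mul_add, mul_add, c1, c2]; abel
  refine ⟨P + Q, y + w, ?_, ?_, ?_, norm_corner zero_le_one hr hs hrs p1 p2 q1 q2 p4 q4,
    ?_, ?_, ?_, ?_, norm_corner (by norm_num) hr hs hrs y1 y2 w1 w2 y5 w5⟩
  · rw [add_mul, mul_add, mul_add, p1, q1, zl hrr q1, zr hss p1]; abel
  · rw [add_mul, mul_add, mul_add, p2, q2, zl p2 hss, zr q2 hrr]; abel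
  · rw [add_mul, mul_add, mul_add, p3, q3, zl p2 q1, zr q2 p1]; abel
  · rw [add_mul, mul_add, mul_add, y1, w1, zl hrr w1, zr hss y1]; abel
  · rw [add_mul, mul_add, mul_add, y2, w2, zl y2 hss, zr w2 hrr]; abel
  · rw [e, add_mul, mul_add, mul_add, y3, w3, zl y2 Y1, zr w2 X1]; abel
  · rw [e, add_mul, mul_add, mul_add, y4, w4, zl X2 w1, zr Y2 y1]; abel

theorem t_CB : S_CB.{u} := by
  intro A _
  exact ⟨cb_one, cb_two, cb_three⟩

end Pool.Agent.U346.AWQ
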